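import Pool.Agent.H54.WB.TargetsA

/-! Board wdb (MP_64fb07_lc), row TRN: transfer of spectra. -/

set_option autoImplicit false

namespace Pool.Agent.H42.WB

open Pool.Agent.H54.WB
open Pool.Agent.H69.Sp Pool.Agent.H76.ADV

theorem spec_pos {S : Set ℕ} (h : IsSpectrum S) {m : ℕ} (hm : m ∈ S) : 0 < m := by
  obtain ⟨L, _, _, φ, rfl⟩ := h
  exact hm.1

theorem pf_TRN : T_TRN := by
  intro g hg hle hinj S Y hS hY hm0
  obtain ⟨m₀, hm0⟩ := hm0
  have hpos : ∀ {m : ℕ}, m ∈ S → 0 < m := fun hm => spec_pos hS hm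
  have hX : IsSpectrum {u | 0 < u ∧ (u < m₀ ∧ u ∈ {u | g u ∈ Y})} := fin_isSpectrum m₀ _
  have hb : GR (fun u => u + 1) := GR.id.add (GR.num 1)
  have hgs : GR (fun w => g (Nat.unpair w).1) := hg.comp GR.fst'
  refine ⟨?_, ?_, ?_⟩
  · have h := ((RL.mem hS GR.fst').and ((RL.eq hgs GR.snd').and
      ((RL.le (GR.num m₀) GR.fst').or (RL.mem hX GR.fst'))))
    have h' := RL.ex (R := fun s u => s ∈ S ∧ g s = u ∧ (m₀ ≤ s ∨
      s ∈ {u | 0 < u ∧ (u < m₀ ∧ u ∈ {u | g u ∈ Y})})) h hb
    have h1 := h'.isSpectrum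
    have e : {u | 0 < u ∧ ∃ s, s < u + 1 ∧ s ∈ S ∧ g s = u ∧ (m₀ ≤ s ∨
      s ∈ {u | 0 < u ∧ (u < m₀ ∧ u ∈ {u | g u ∈ Y})})} = Y := by
      ext n
      constructor
      · rintro ⟨_, s, _, hsS, hsn, hs | hs⟩
        · rw [← hsn]
          exact hm0 s hsS hs
        · rw [← hsn]
          exact hs.2.2
      · intro hn
        obtain ⟨m, hm, rfl⟩ := hY n hn
        have h2 := hpos hm
        have h3 := hle m
        refine ⟨by omega, m, by omega, hm, rfl, ?_⟩
        by_cases h4 : m₀ ≤ m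
        · exact Or.inl h4
        · exact Or.inr ⟨h2, by omega, hn⟩
    rwa [e] at h1
  · intro hYc
    have hZ : IsSpectrum {u | 0 < u ∧ (u < m₀ ∧ u ∈ posCompl S)} := fin_isSpectrum m₀ _
    have h := ((RL.le (GR.num m₀) GR.id).and (RL.mem hYc hg)).or (RL.mem hZ GR.id)
    have h1 := h.isSpectrum
    have e : {u | 0 < u ∧ (m₀ ≤ u ∧ g u ∈ posCompl Y ∨
        u ∈ {u | 0 < u ∧ (u < m₀ ∧ u ∈ posCompl S)})} = posCompl S := by
      ext m
      constructor
      · rintro ⟨hm, ⟨h2, h3⟩ | h2⟩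
        · exact ⟨hm, fun h4 => h3.2 (hm0 m h4 h2)⟩
        · exact h2.2.2
      · intro hm
        refine ⟨hm.1, ?_⟩
        by_cases h2 : m₀ ≤ m
        · left
          refine ⟨h2, lt_of_lt_of_le hm.1 (hle m), fun h3 => ?_⟩
          obtain ⟨m', hm', h4⟩ := hY _ h3
          have h5 := hinj m m' hm.1 (hpos hm') h4
          rw [← h5] at hm'
          exact hm.2 hm'
        · right
          exact ⟨hm.1, by omega, hm⟩
    rwa [e] at h1
  · intro hSc
    have hZ : IsSpectrum {u | 0 < u ∧ (u < m₀ ∧ u ∈ {u | g u ∉ Y})} := fin_isSpectrum m₀ _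
    have ha := RL.all (R := fun s u => s = 0 ∨ g s ≠ u)
      ((RL.eq GR.fst' (GR.num 0)).or (RL.ne hgs GR.snd')) hb
    have hc := RL.ex (R := fun s u => 0 < s ∧ g s = u ∧ (s ∈ posCompl S ∨
      s ∈ {u | 0 < u ∧ (u < m₀ ∧ u ∈ {u | g u ∉ Y})}))
      ((RL.lt (GR.num 0) GR.fst').and ((RL.eq hgs GR.snd').and
        ((RL.mem hSc GR.fst').or (RL.mem hZ GR.fst')))) hb
    have h1 := (ha.or hc).isSpectrum
    have e : {u | 0 < u ∧ ((∀ s, s < u + 1 → s = 0 ∨ g s ≠ u) ∨
        ∃ s, s < u + 1 ∧ 0 < s ∧ g s = u ∧ (s ∈ posCompl S ∨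
      s ∈ {u | 0 < u ∧ (u < m₀ ∧ u ∈ {u | g u ∉ Y})}))} = posCompl Y := by
      ext n
      constructor
      · rintro ⟨hn, h2 | ⟨s, _, hs0, hsn, hs⟩⟩
        · refine ⟨hn, fun h3 => ?_⟩
          obtain ⟨m, hm, h4⟩ := hY n h3
          have h5 := hle m
          have h6 := hpos hm
          rcases h2 m (by omega) with h7 | h7
          · omega
          · exact h7 h4.symm
        · refine ⟨hn, fun h3 => ?_⟩
          obtain ⟨m, hm, h4⟩ := hY n h3
          have h5 := hinj s m hs0 (hpos hm) (hsn.trans h4)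
          rcases hs with hs | hs
          · rw [h5] at hs
            exact hs.2 hm
          · apply hs.2.2
            rw [hsn]
            exact h3
      · intro hn
        refine ⟨hn.1, ?_⟩
        by_cases h2 : ∃ s, s < n + 1 ∧ 0 < s ∧ g s = n
        · obtain ⟨s, hs1, hs0, hsn⟩ := h2
          right
          refine ⟨s, hs1, hs0, hsn, ?_⟩
          by_cases hsS : s ∈ S
          · right
            refine ⟨hs0, ?_, ?_⟩
            · by_contra h3
              apply hn.2
              rw [← hsn]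
              exact hm0 s hsS (by omega)
            · show g s ∉ Y
              rw [hsn]
              exact hn.2
          · left
            exact ⟨hs0, hsS⟩
        · left
          intro s hs
          by_cases hs0 : s = 0
          · exact Or.inl hs0
          · right
            intro h3
            exact h2 ⟨s, hs, by omega, h3⟩
    rwa [e] at h1

end Pool.Agent.H42.WB
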